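import Pool.Agent.L0h10.UXL.LYR
import Pool.Agent.L0h2.UX.BCK
import Pool.Agent.L0h24.UX.CMP
import Pool.Agent.L0h29.UX.WGT
import Pool.Agent.L0h34.UX.PTH
import Pool.Agent.L0h36.UX.ALL
import Pool.Agent.L0h4.UX.LAY
import Pool.Agent.L0h55.UX.BND
import Pool.Agent.L0h56.UX.HOP
import Pool.Agent.L0h56.UX.UPP
import Pool.Agent.L0h59.UX.MV0
import Pool.Agent.L0h6.UX.AVG
import Pool.Agent.L0h6.UX.ISO
import Pool.Agent.L0h60.UX.BDG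
import Pool.Agent.L0h71.UX.YES
import Pool.Agent.L0h75.UX.MOV
import Pool.Agent.L0h78.UX.WG
import Pool.Agent.L0h85.UX.CARD
import Pool.Agent.L0h90.UX.ENU
import Pool.Agent.L0h95.UX.LOC
import Pool.Agent.L0h95.UX.UNA

/-!
# Unambiguous self-verifying 1-limited automata: the assembly
-/

set_option autoImplicit false

namespace Pool.Agent.L0h32.UX

theorem t_WGT : S_WGT := Pool.Agent.L0h29.UX.t_WGT (Pool.Agent.L0h78.UX.t_WG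
  Pool.Agent.L0h6.UX.t_AVG (Pool.Agent.L0h60.UX.t_BDG Pool.Agent.L0h6.UX.t_ISO))

theorem t_HOP : S_HOP := Pool.Agent.L0h56.UX.t_HOP Pool.Agent.L0h4.UX.t_LAY Pool.Agent.L0h59.UX.t_MV0

theorem t_MOV : S_MOV :=
  Pool.Agent.L0h75.UX.t_MOV t_HOP Pool.Agent.L0h71.UX.t_YES Pool.Agent.L0h71.UX.t_EXI

theorem t_ENU : S_ENU :=
  Pool.Agent.L0h90.UX.t_ENU Pool.Agent.L0h34.UX.t_PTH Pool.Agent.L0h71.UX.t_YES t_HOP

theorem t_ALL : S_ALL := Pool.Agent.L0h36.UX.t_ALL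
  (Pool.Agent.L0h10.UXL.t_LYR t_ENU t_HOP Pool.Agent.L0h4.UX.t_LAY) Pool.Agent.L0h59.UX.t_MV0

theorem t_CMP : S_CMP := Pool.Agent.L0h24.UX.t_CMP t_ALL Pool.Agent.L0h55.UX.t_BND
  Pool.Agent.L0h59.UX.t_MV0 t_MOV

theorem t_UNA : S_UNA := Pool.Agent.L0h95.UXU.t_UNA Pool.Agent.L0h59.UX.t_MV0 t_MOV
  Pool.Agent.L0h2.UX.t_BCK Pool.Agent.L0h95.UX.t_LOC

theorem t_UPP : S_UPP :=
  Pool.Agent.L0h56.UX.t_UPP Pool.Agent.L0h85.UX.t_CARD t_WGT t_UNA t_CMP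

end Pool.Agent.L0h32.UX
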