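import Pool.Agent.L0h32.UX.Stm
import Pool.Agent.L0h32.CX.Cost

/-!
# Unambiguous self-verifying automata: costs
-/

set_option autoImplicit false

namespace Pool.Agent.L0h32.UX

open Relation
open Pool.Agent.H630R2.LA
open Pool.Agent.TH705.LB
open Pool.Agent.N602.FT
open Pool.Agent.L0h32.CX (withF SelfVerifying svSize svCosts V C size_withF)

/-- The least size (with the number of rejecting states) of an unambiguous self-verifying automaton for
`L`. -/
noncomputable def uvSize {A : Type} (strict : Prop) (L : Set (List A)) : ℕ :=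
  sInf {s | ∃ (M : LimAut A) (G : Set M.Q), UniqueVerdict strict M G ∧ M.language strict = L ∧
    M.size + G.ncard = s}

/-- The sizes `uvSize L(M)` for the 1-limited automata `M` of size at most `n`. -/
def uvCosts (strict : Prop) (n : ℕ) : Set ℕ :=
  {s | ∃ (A : Type) (_ : Finite A) (M : LimAut A), M.size ≤ n ∧
    s = uvSize strict (M.language strict)}

/-- The worst-case cost `U(n)` of the conversion of 1-limited automata into unambiguous self-verifying
ones. -/
noncomputable def U (strict : Prop) (n : ℕ) : ℕ := sSup (uvCosts strict n)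

section conv

variable {A : Type} {strict : Prop} {M : LimAut A} {G : Set M.Q}

theorem mem_withF (w : List A) : w ∈ (withF M G).language strict ↔
    ∃ c : Cfg M, ReflTransGen (Step strict w.length) (init M w) c ∧ c.pos = w.length + 2 ∧
      c.state ∈ G := by
  let f : Cfg (withF M G) → Cfg M := fun c => ⟨c.state, c.pos, c.tape, c.seen⟩
  let g : Cfg M → Cfg (withF M G) := fun c => ⟨c.state, c.pos, c.tape, c.seen⟩
  constructor
  · rintro ⟨c, h1, h2, h3⟩
    refine ⟨f c, ?_, h2, h3⟩
    have h4 : ReflTransGen (Step strict w.length) (f (init (withF M G) w)) (f c) :=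
      ReflTransGen.lift f (fun a b (h : Step strict w.length a b) =>
        (show Step strict w.length (f a) (f b) from h)) _ _ h1
    exact h4
  · rintro ⟨c, h1, h2, h3⟩
    refine ⟨g c, ?_, h2, h3⟩
    have h4 : ReflTransGen (Step strict w.length) (g (init M w)) (g c) :=
      ReflTransGen.lift g (fun a b (h : Step strict w.length a b) =>
        (show Step strict w.length (g a) (g b) from h)) _ _ h1
    exact h4

theorem exists_run {w : List A} {c : Cfg M}
    (h : ReflTransGen (Step strict w.length) (init M w) c) (hp : c.pos = w.length + 2)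
    (hs : c.state ∈ M.F ∪ G) : ∃ r, IsRun strict M G w r ∧ r.getLast? = some c := by
  obtain ⟨l, h1, h2⟩ := List.exists_isChain_cons_of_relationReflTransGen h
  have h3 : (init M w :: l).getLast? = some c := by
    rw [List.getLast?_eq_getLast_of_ne_nil (List.cons_ne_nil _ _), h2]
  exact ⟨init M w :: l, ⟨rfl, h1, c, h3, hp, hs⟩, h3⟩

theorem reach_of_run {w : List A} {r : List (Cfg M)} {c : Cfg M} (h : IsRun strict M G w r)
    (hc : r.getLast? = some c) : ReflTransGen (Step strict w.length) (init M w) c := by
  obtain ⟨h1, h2, _⟩ := h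
  cases r with
  | nil => simp at h1
  | cons a l =>
    have h3 : a = init M w := by simpa using h1
    subst h3
    refine List.relationReflTransGen_of_exists_isChain_cons l h2 ?_
    rw [List.getLast?_eq_getLast_of_ne_nil (List.cons_ne_nil _ _)] at hc
    exact Option.some.inj hc

/-- An unambiguous self-verifying automaton is self-verifying. -/
theorem UniqueVerdict.sv (h : UniqueVerdict strict M G) : SelfVerifying strict M G := by
  ext w
  rw [mem_withF]
  constructor
  · rintro ⟨c, h1, h2, h3⟩ ⟨c', h4, h5, h6⟩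
    obtain ⟨r, hr, hrc⟩ := exists_run (G := G) h1 h2 (Or.inr h3)
    obtain ⟨r', hr', hrc'⟩ := exists_run (G := G) h4 h5 (Or.inl h6)
    have h7 : r = r' := (h.2 w).unique hr hr'
    subst h7
    rw [hrc] at hrc'
    obtain rfl : c = c' := Option.some.inj hrc'
    exact Set.disjoint_left.1 h.1 h6 h3
  · intro hw
    obtain ⟨r, hr, _⟩ := h.2 w
    obtain ⟨c, h1, h2, h3⟩ := hr.2.2
    have h4 := reach_of_run hr h1
    rcases h3 with h3 | h3
    · exact absurd ⟨c, h4, h2, h3⟩ hw
    · exact ⟨c, h4, h2, h3⟩

/-- At most one accepting computation. -/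
theorem UniqueVerdict.unamb (h : UniqueVerdict strict M G) {w : List A} {r r' : List (Cfg M)}
    (hr : IsRun strict M ∅ w r) (hr' : IsRun strict M ∅ w r') : r = r' := by
  refine (h.2 w).unique ?_ ?_
  · obtain ⟨h1, h2, c, h3, h4, h5⟩ := hr
    exact ⟨h1, h2, c, h3, h4, Or.inl (by simpa using h5)⟩
  · obtain ⟨h1, h2, c, h3, h4, h5⟩ := hr'
    exact ⟨h1, h2, c, h3, h4, Or.inl (by simpa using h5)⟩

end conv

section final

variable (hP : S_UPP) (strict : Prop)

include hP in
theorem uvCosts_le (n s : ℕ) (hs : s ∈ uvCosts strict n) : s ≤ 2 ^ (300 * n ^ 2) := by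
  obtain ⟨A, hA, M, hM, rfl⟩ := hs
  obtain ⟨M', G, h1, h2, h3⟩ := hP A strict M n hM
  exact le_trans (Nat.sInf_le ⟨M', G, h1, h2, rfl⟩) h3

include hP in
theorem bdd_uv (n : ℕ) : BddAbove (uvCosts strict n) := ⟨_, fun s hs => uvCosts_le hP strict n s hs⟩

include hP in
theorem U_greatest (n : ℕ) (hn : 4 ≤ n) : IsGreatest (uvCosts strict n) (U strict n) := by
  have hne : (uvCosts strict n).Nonempty :=
    ⟨_, Empty, inferInstance, trivM, by rw [size_trivM]; exact hn, rfl⟩
  exact ⟨Nat.sSup_mem hne (bdd_uv hP strict n), fun s hs => le_csSup (bdd_uv hP strict n) hs⟩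

include hP in
theorem U_le (n : ℕ) : U strict n ≤ 2 ^ (300 * n ^ 2) := by
  rcases (uvCosts strict n).eq_empty_or_nonempty with h | h
  · unfold U
    rw [h]
    simp
  · exact csSup_le h fun s hs => uvCosts_le hP strict n s hs

include hP in
theorem sv_le_uv {A : Type} [Finite A] (M : LimAut A) :
    svSize strict (M.language strict) ≤ uvSize strict (M.language strict) := by
  have hne : {s | ∃ (M' : LimAut A) (G : Set M'.Q), UniqueVerdict strict M' G ∧
      M'.language strict = M.language strict ∧ M'.size + G.ncard = s}.Nonempty := by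
    obtain ⟨M', G, h1, h2, _⟩ := hP A strict M M.size le_rfl
    exact ⟨_, M', G, h1, h2, rfl⟩
  obtain ⟨M', G, h1, h2, h3⟩ := Nat.sInf_mem hne
  have h4 : M'.size + G.ncard = uvSize strict (M.language strict) := h3
  rw [← h4]
  exact Nat.sInf_le ⟨M', G, h1.sv, h2, rfl⟩

include hP in
theorem V_le_U (n : ℕ) : V strict n ≤ U strict n := by
  rcases (svCosts strict n).eq_empty_or_nonempty with h | h
  · unfold V
    rw [h]
    simp
  · refine csSup_le h ?_
    rintro s ⟨A, hA, M, hM, rfl⟩
    exact (sv_le_uv hP strict M).trans (le_csSup (bdd_uv hP strict n) ⟨A, hA, M, hM, rfl⟩)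

end final

end Pool.Agent.L0h32.UX
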