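import Mathlib
import Pool.Agent.H630R2.LA.Det

/-!
# Project UX (MP_0036f5_lc): unambiguous self-verifying 1-limited automata

Every 1-limited automaton of size `n` has an equivalent one of size `2 ^ O(n ^ 2)` with accepting and
rejecting states such that on every word exactly one computation ends in such a state.

Blocks of `2 ^ h` cells annotated by the reachable states as in `H630R2/LA`. The next bit is found by
inductive counting for weighted paths (Reinhardt and Allender): the weight function `W i` is bad for a word if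
some state has two different paths of minimal weight; this is detected, and the machine goes on with `W (i + 1)`.

Notation: `t` letters have been treated, the cells `1..t+1` have been visited (the last one may be the right
end-marker), home is the cell `t`. `β = t + 1 - EE` is the beginning of the base block; layer `j` of the path
is the state after `β + j` letters.
-/

set_option autoImplicit false
set_option linter.all false

namespace Pool.Agent.L0h32.UX

open Relation
open Pool.Agent.H630R2.LA (LimAut Sym Cfg Step init initTape WS lrel bitS ix nr Ann keep)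

/-- The data with which an unvisited cell is entered (`t` letters have been treated, `T0 = t / 2 ^ h * 2 ^ h`):
is this the first block (`t < 2 ^ h`), the index `k = t % 2 ^ h` in the block, the number `c0` of the states
reachable at the beginning of the previous block, the number `cnt` of the states `< k` reachable at `T0`, the bit
of the cell. -/
structure Wr where
  first : Bool
  k : ℕ
  c0 : ℕ
  cnt : ℕ
  b : Bool

/-- A minimum and whether it is attained twice. -/
structure Rec where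
  has : Bool
  mn : ℕ
  mul : Bool

/-- The empty record. -/
def rec0 : Rec := ⟨false, 0, false⟩

/-- A new value. -/
def upd (r : Rec) (v : ℕ) : Rec :=
  if r.has = true then
    (if v < r.mn then ⟨true, v, false⟩ else if v = r.mn then ⟨true, r.mn, true⟩ else r)
  else ⟨true, v, false⟩

/-- The memory at home. `fin`: is this the final test (right end-marker); `i`: the weight function; `l`: the
layer, `c` and `s`: the number of its states and the sum of their minimal weights; `y`: the target in the layer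
`l + 1`, `cn` and `sn`: number and sum of the minimal weights of the targets `< y`; `z`: the source, `d` and `e`:
number and sum of the weights of the sources found so far; `r`: the record for the target `y`; `f`: the answer. -/
structure Mem where
  x : Wr
  fin : Bool
  i : ℕ
  l : ℕ
  c : ℕ
  s : ℕ
  y : ℕ
  cn : ℕ
  sn : ℕ
  z : ℕ
  d : ℕ
  e : ℕ
  r : Rec
  f : Bool

/-! ### Weighted paths in layered graphs (generic) -/

section generic

variable {P : Type} (S : P → Prop) (Eg : ℕ → P → P → Prop) (wt : ℕ → P → P → ℕ)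

/-- There is a path of weight `v` from `S` in the layer `0` to `p` in the layer `j`. -/
def GPw : ℕ → P → ℕ → Prop
  | 0, p, v => S p ∧ v = 0
  | j + 1, q, v => ∃ p u, GPw j p u ∧ Eg j p q ∧ v = u + wt j p q

/-- There is a path of weight `v` from `p` in the layer `j` to `q` in the layer `l`. -/
inductive GWp : ℕ → P → ℕ → P → ℕ → Prop
  | refl (j : ℕ) (p : P) : GWp j p j p 0
  | cons (j l : ℕ) (p p' q : P) (v : ℕ) (he : Eg j p p') (hw : GWp (j + 1) p' l q v) :
      GWp j p l q (wt j p p' + v)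

/-- The minimal weight. -/
noncomputable def GDm (j : ℕ) (p : P) : ℕ := sInf {v | GPw S Eg wt j p v}

/-- The vertex `p` of the layer `j` lies on a path of minimal weight to the vertex `z` of the layer `l`. -/
def GOn (j : ℕ) (p : P) (l : ℕ) (z : P) : Prop :=
  ∃ v r, GPw S Eg wt j p v ∧ GWp Eg wt j p l z r ∧ v + r = GDm S Eg wt l z

/-- The path of minimal weight to the vertex `z` of the layer `l` is unique. -/
def GUq (l : ℕ) (z : P) : Prop :=
  ∀ j ≤ l, ∀ p p', GOn S Eg wt j p l z → GOn S Eg wt j p' l z → p = p'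

end generic

section defs

variable {A : Type} (h : ℕ) (rel : A → Fin (2 ^ h) → Fin (2 ^ h) → Bool) (p0 : Fin (2 ^ h))
  (facc : Fin (2 ^ h) → Bool) (K : ℕ) (W : ℕ → ℕ → Fin (2 ^ h) → Fin (2 ^ h) → ℕ)

/-- The states. -/
inductive St : Type
  | wr (x : Wr) : St
  | hm (m : Mem) : St
  | h1 (m : Mem) : St
  | rA (m : Mem) (i : ℕ) : St
  | rB (m : Mem) (p : Fin (2 ^ h)) (i : ℕ) : St
  | rC (m : Mem) (p : Fin (2 ^ h)) (v : ℕ) (i : ℕ) : St
  | rR (m : Mem) (i : ℕ) : St
  | ex (x : Wr) : St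
  | f1 (b : Bool) : St
  | fin (b : Bool) : St

/-- The number of layers. -/
def LL (x : Wr) (fin : Bool) : ℕ :=
  if fin = true then (if x.first = true then x.k else 2 ^ h + x.k)
  else if x.first = true ∧ x.k + 1 < 2 ^ h then 0 else 2 ^ h

/-- The distance from the beginning of the base block to the cell `t + 1`. -/
def EE (x : Wr) (fin : Bool) : ℕ :=
  if fin = true then (if x.first = true then x.k + 1 else 2 ^ h + x.k + 1)
  else if x.k + 1 < 2 ^ h then (if x.first = true then x.k + 1 else 2 ^ h + x.k + 1) else 2 ^ h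

/-- Is the base the initial state (no annotation is used)? -/
def bas (x : Wr) (fin : Bool) : Bool := fin && x.first

/-- `cnt + 1` if the bit is true. -/
def cb (x : Wr) : ℕ := x.cnt + (if x.b = true then 1 else 0)

/-- The number of the states of the layer `0`. -/
def cS (x : Wr) (fin : Bool) : ℕ :=
  if fin = true then (if x.first = true then 1 else x.c0)
  else if x.k + 1 < 2 ^ h then (if x.first = true then 1 else x.c0) else cb x

/-- The property of the states that one is looking for. -/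
def tst (x : Wr) (fin : Bool) (q : Fin (2 ^ h)) : Bool :=
  if fin = true then facc q else decide (q = ix h (x.k + 1))

/-- The memory at the beginning of the run with the weight function `i`. -/
def mem0 (x : Wr) (fin : Bool) (i : ℕ) : Mem :=
  ⟨x, fin, i, 0, cS h x fin, 0, 0, 0, 0, 0, 0, 0, rec0,
    decide (LL h x fin = 0) && tst h facc x fin p0⟩

/-- The data for the next cell. -/
def nxt (x : Wr) (f : Bool) : Wr :=
  if x.k + 1 < 2 ^ h then ⟨x.first, x.k + 1, x.c0, cb x, f⟩ else ⟨false, 0, cb x, 0, f⟩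

/-- The source `z` is reachable with weight `v`; `σ` is the letter after the layer `l`. -/
def yes (m : Mem) (v : ℕ) (σ : Sym (WS A)) : Mem :=
  { m with z := m.z + 1, d := m.d + 1, e := m.e + v,
           r := if lrel h rel σ (ix h m.z) (ix h m.y) = true then
              upd m.r (v + W m.i m.l (ix h m.z) (ix h m.y)) else m.r }

/-- The number of layers of a memory. -/
abbrev Ly (m : Mem) : ℕ := LL h m.x m.fin

/-- Changes of the memory at home. -/
inductive Hop : Mem → Mem → Prop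
  | no (m : Mem) (hl : m.l < Ly h m) (hy : m.y < 2 ^ h) (hz : m.z < 2 ^ h) :
      Hop m { m with z := m.z + 1 }
  | nexty (m : Mem) (hl : m.l < Ly h m) (hy : m.y < 2 ^ h) (hz : m.z = 2 ^ h) (hd : m.d = m.c)
      (he : m.e = m.s) (hm : m.r.mul = false) :
      Hop m { m with y := m.y + 1, cn := m.cn + (if m.r.has = true then 1 else 0),
                     sn := m.sn + (if m.r.has = true then m.r.mn else 0),
                     z := 0, d := 0, e := 0, r := rec0,
                     f := m.f || (decide (m.l + 1 = Ly h m) && m.r.has && tst h facc m.x m.fin (ix h m.y)) }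
  | bad (m : Mem) (hl : m.l < Ly h m) (hy : m.y < 2 ^ h) (hz : m.z = 2 ^ h) (hd : m.d = m.c)
      (he : m.e = m.s) (hm : m.r.mul = true) (hi : m.i + 1 < K) :
      Hop m (mem0 h p0 facc m.x m.fin (m.i + 1))
  | layer (m : Mem) (hl : m.l < Ly h m) (hy : m.y = 2 ^ h) :
      Hop m { m with l := m.l + 1, c := m.cn, s := m.sn, y := 0, cn := 0, sn := 0 }

/-- The moves. -/
inductive Tr : St h → Sym (WS A) → St h → WS A → Bool → Prop
  | wrL (x : Wr) (a : A) : Tr (.wr x) (.sym (.raw a)) (.hm (mem0 h p0 facc x false 0)) (.mark a x.b) false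
  | wrR (x : Wr) : Tr (.wr x) .rm (.hm (mem0 h p0 facc x true 0)) .dum false
  | hop (m m' : Mem) (σ : Sym (WS A)) (hh : Hop h p0 facc K m m') : Tr (.hm m) σ (.h1 m') (keep σ) true
  | back (m : Mem) (σ : Sym (WS A)) : Tr (.h1 m) σ (.hm m) (keep σ) false
  | ask (m : Mem) (σ : Sym (WS A)) (hl : m.l < Ly h m) (hy : m.y < 2 ^ h) (hz : m.z < 2 ^ h) :
      Tr (.hm m) σ (.rA m (EE h m.x m.fin)) (keep σ) true
  | aL (m : Mem) (i : ℕ) (σ : Sym (WS A)) : Tr (.rA m (i + 1)) σ (.rA m i) (keep σ) false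
  | aF (m : Mem) (σ : Sym (WS A)) (hf : bas m.x m.fin = true) :
      Tr (.rA m 1) σ (.rB m p0 0) (keep σ) false
  | aC (m : Mem) (i : ℕ) (σ : Sym (WS A)) (hf : bas m.x m.fin = false) (hi : i < 2 ^ h)
      (hb : bitS σ = true) : Tr (.rA m (i + 1)) σ (.rB m (ix h i) i) (keep σ) false
  | bL (m : Mem) (p : Fin (2 ^ h)) (i : ℕ) (σ : Sym (WS A)) :
      Tr (.rB m p (i + 1)) σ (.rB m p i) (keep σ) false
  | b0 (m : Mem) (p : Fin (2 ^ h)) (σ : Sym (WS A)) : Tr (.rB m p 0) σ (.rC m p 0 1) (keep σ) true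
  | cS (m : Mem) (p p' : Fin (2 ^ h)) (v j : ℕ) (σ : Sym (WS A)) (hj : j < m.l)
      (hl : lrel h rel σ p p' = true) :
      Tr (.rC m p v (j + 1)) σ (.rC m p' (v + W m.i j p p') (j + 2)) (keep σ) true
  | cD (m : Mem) (p : Fin (2 ^ h)) (v j : ℕ) (σ : Sym (WS A)) (hj : j = m.l)
      (hp : p = ix h m.z) (hE : j + 1 = EE h m.x m.fin) :
      Tr (.rC m p v (j + 1)) σ (.hm (yes h rel W m v σ)) (keep σ) false
  | cR (m : Mem) (p : Fin (2 ^ h)) (v j : ℕ) (σ : Sym (WS A)) (hj : j = m.l)
      (hp : p = ix h m.z) (hE : j + 1 < EE h m.x m.fin) :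
      Tr (.rC m p v (j + 1)) σ (.rR (yes h rel W m v σ) (j + 2)) (keep σ) true
  | rS (m : Mem) (i : ℕ) (σ : Sym (WS A)) (hi : i < EE h m.x m.fin) :
      Tr (.rR m i) σ (.rR m (i + 1)) (keep σ) true
  | rE (m : Mem) (i : ℕ) (σ : Sym (WS A)) (hi : i = EE h m.x m.fin) :
      Tr (.rR m i) σ (.hm m) (keep σ) false
  | exi (m : Mem) (σ : Sym (WS A)) (hf : m.fin = false) (hl : m.l = Ly h m) :
      Tr (.hm m) σ (.ex (nxt h m.x m.f)) (keep σ) true
  | wrt (x : Wr) (σ : Sym (WS A)) : Tr (.ex x) σ (.wr x) (keep σ) true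
  | acc (m : Mem) (σ : Sym (WS A)) (hf : m.fin = true) (hl : m.l = Ly h m) :
      Tr (.hm m) σ (.f1 m.f) (keep σ) true
  | fin (b : Bool) (σ : Sym (WS A)) : Tr (.f1 b) σ (.fin b) (keep σ) true

/-- Bounds for the numbers: all are at most `N`. -/
def BdW (N : ℕ) (x : Wr) : Prop := x.k ≤ N ∧ x.c0 ≤ N ∧ x.cnt ≤ N

def BdM (N : ℕ) (m : Mem) : Prop :=
  BdW N m.x ∧ m.i ≤ N ∧ m.l ≤ N ∧ m.c ≤ N ∧ m.s ≤ N ∧ m.y ≤ N ∧ m.cn ≤ N ∧ m.sn ≤ N ∧ m.z ≤ N ∧
    m.d ≤ N ∧ m.e ≤ N ∧ m.r.mn ≤ N

def Bd (N : ℕ) : St h → Prop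
  | .wr x => BdW N x
  | .hm m => BdM N m
  | .h1 m => BdM N m
  | .rA m i => BdM N m ∧ i ≤ N
  | .rB m _ i => BdM N m ∧ i ≤ N
  | .rC m _ v i => BdM N m ∧ v ≤ N ∧ i ≤ N
  | .rR m i => BdM N m ∧ i ≤ N
  | .ex x => BdW N x
  | .f1 _ => True
  | .fin _ => True

/-- The initial data. -/
def w0 : Wr := ⟨true, 0, 0, 0, decide (ix h 0 = p0)⟩

theorem bd_w0 (N : ℕ) : Bd h N (.wr (w0 h p0)) := ⟨Nat.zero_le _, Nat.zero_le _, Nat.zero_le _⟩

/-- The machine. -/
def uM [Finite A] (N : ℕ) (hQ : Finite {s : St h // Bd h N s}) : LimAut A where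
  Q := {s : St h // Bd h N s}
  W := WS A
  finQ := hQ
  finW := Pool.Agent.H630R2.LA.finite_WS A
  inp := WS.raw
  inp_inj := by
    intro a b hab
    cases hab
    rfl
  δ := fun q σ => {x | Tr h rel p0 facc K W q.1 σ x.1.1 x.2.1 x.2.2}
  q0 := ⟨.wr (w0 h p0), bd_w0 h p0 N⟩
  F := {q | q.1 = .fin true}

/-- The rejecting states. -/
def uG [Finite A] (N : ℕ) (hQ : Finite {s : St h // Bd h N s}) :
    Set (uM h rel p0 facc K W N hQ : LimAut A).Q := {q | q.1 = .fin false}

/-! ### Weighted paths -/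

/-- There is an edge from `p` in the layer `l` to `q` in the layer `l + 1`. -/
def Ed (w : List A) (β l : ℕ) (p q : Fin (2 ^ h)) : Prop := ∃ a, w[β + l]? = some a ∧ rel a p q = true

/-- There is a path of weight `v` from a state reachable after `β` letters to the state `p` in the layer
`j`. -/
abbrev Pw (w : List A) (β i : ℕ) : ℕ → Fin (2 ^ h) → ℕ → Prop :=
  GPw (nr h rel p0 w β) (Ed h rel w β) (W i)

/-- The minimal weight. -/
noncomputable abbrev Dm (w : List A) (β i j : ℕ) (p : Fin (2 ^ h)) : ℕ :=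
  GDm (nr h rel p0 w β) (Ed h rel w β) (W i) j p

/-- The state `p` of the layer `j` lies on a path of minimal weight to the state `z` of the layer `l`. -/
abbrev OnM (w : List A) (β i j : ℕ) (p : Fin (2 ^ h)) (l : ℕ) (z : Fin (2 ^ h)) : Prop :=
  GOn (nr h rel p0 w β) (Ed h rel w β) (W i) j p l z

/-- The path of minimal weight to the state `z` of the layer `l` is unique. -/
abbrev Uq (w : List A) (β i l : ℕ) (z : Fin (2 ^ h)) : Prop :=
  GUq (nr h rel p0 w β) (Ed h rel w β) (W i) l z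

open Classical in
/-- The number of the states `< y` in the layer `l`. -/
noncomputable def cnL (w : List A) (β l y : ℕ) : ℕ :=
  (Finset.univ.filter fun q : Fin (2 ^ h) => q.val < y ∧ nr h rel p0 w (β + l) q).card

open Classical in
/-- The sum of the minimal weights of the states `< y` in the layer `l`. -/
noncomputable def smL (w : List A) (β i l y : ℕ) : ℕ :=
  ∑ q ∈ Finset.univ.filter (fun q : Fin (2 ^ h) => q.val < y ∧ nr h rel p0 w (β + l) q),
    Dm h rel p0 W w β i l q

/-- The record `r` is right for the values `g` on `T`. -/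
def RecOK (r : Rec) (T : Finset (Fin (2 ^ h))) (g : Fin (2 ^ h) → ℕ) : Prop :=
  (r.has = true ↔ T.Nonempty) ∧ (r.has = false → r.mul = false ∧ r.mn = 0) ∧
  (r.has = true → (∃ q ∈ T, g q = r.mn) ∧ (∀ q ∈ T, r.mn ≤ g q) ∧
    (r.mul = true ↔ ∃ q ∈ T, ∃ q' ∈ T, q ≠ q' ∧ g q = r.mn ∧ g q' = r.mn))

/-! ### Invariants -/

/-- The data `x` are right after `t` letters. -/
def WOK (w : List A) (t : ℕ) (x : Wr) : Prop :=
  x.first = decide (t < 2 ^ h) ∧ x.k = t % 2 ^ h ∧
    x.c0 = (if t < 2 ^ h then 0 else cnL h rel p0 w (t / 2 ^ h * 2 ^ h - 2 ^ h) 0 (2 ^ h)) ∧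
    x.cnt = cnL h rel p0 w (t / 2 ^ h * 2 ^ h) 0 (t % 2 ^ h) ∧
    (x.b = true ↔ nr h rel p0 w (t / 2 ^ h * 2 ^ h) (ix h t))

/-- The beginning of the base block. -/
def bt (t : ℕ) (m : Mem) : ℕ := t + 1 - EE h m.x m.fin

open Classical in
/-- The memory `m` at home is right. -/
def MOK (w : List A) (t : ℕ) (m : Mem) : Prop :=
  WOK h rel p0 w t m.x ∧ (m.fin = false → t < w.length) ∧ (m.fin = true → t = w.length) ∧
  m.i < K ∧ m.l ≤ Ly h m ∧
  m.c = cnL h rel p0 w (bt h t m) m.l (2 ^ h) ∧ m.s = smL h rel p0 W w (bt h t m) m.i m.l (2 ^ h) ∧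
  (∀ q, Uq h rel p0 W w (bt h t m) m.i m.l q) ∧
  m.y ≤ 2 ^ h ∧ m.cn = cnL h rel p0 w (bt h t m) (m.l + 1) m.y ∧
  m.sn = smL h rel p0 W w (bt h t m) m.i (m.l + 1) m.y ∧
  (∀ q : Fin (2 ^ h), q.val < m.y → Uq h rel p0 W w (bt h t m) m.i (m.l + 1) q) ∧
  m.z ≤ 2 ^ h ∧ (m.l = Ly h m → m.y = 0) ∧ ((m.l = Ly h m ∨ m.y = 2 ^ h) → m.z = 0) ∧
  (∃ (Z : Finset (Fin (2 ^ h))) (g : Fin (2 ^ h) → ℕ),
    (∀ q ∈ Z, q.val < m.z ∧ Pw h rel p0 W w (bt h t m) m.i m.l q (g q)) ∧
    m.d = Z.card ∧ m.e = ∑ q ∈ Z, g q ∧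
    RecOK h m.r (Z.filter fun q => Ed h rel w (bt h t m) m.l q (ix h m.y))
      (fun q => g q + W m.i m.l q (ix h m.y))) ∧
  (m.f = true ↔ (m.l = Ly h m ∧ ∃ q, nr h rel p0 w (bt h t m + Ly h m) q ∧ tst h facc m.x m.fin q = true) ∨
    (m.l + 1 = Ly h m ∧ ∃ q : Fin (2 ^ h), q.val < m.y ∧ nr h rel p0 w (bt h t m + Ly h m) q ∧
      tst h facc m.x m.fin q = true))

/-- What is known of a state and the position of the head, if `t` letters have been treated and the
cells `1..t+1` have been visited. -/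
def SOK (w : List A) (t : ℕ) : St h → ℕ → Prop
  | .wr _, _ => False
  | .hm m, x => MOK h rel p0 facc K W w t m ∧ x = t
  | .h1 m, x => MOK h rel p0 facc K W w t m ∧ x = t + 1
  | .rA m i, x => MOK h rel p0 facc K W w t m ∧ m.l < Ly h m ∧ m.y < 2 ^ h ∧ m.z < 2 ^ h ∧
      i ≤ EE h m.x m.fin ∧ x = bt h t m + i
  | .rB m p i, x => MOK h rel p0 facc K W w t m ∧ m.l < Ly h m ∧ m.y < 2 ^ h ∧ m.z < 2 ^ h ∧
      i ≤ EE h m.x m.fin ∧ x = bt h t m + i ∧ nr h rel p0 w (bt h t m) p
  | .rC m p v i, x => MOK h rel p0 facc K W w t m ∧ m.l < Ly h m ∧ m.y < 2 ^ h ∧ m.z < 2 ^ h ∧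
      1 ≤ i ∧ i ≤ m.l + 1 ∧ x = bt h t m + i ∧ Pw h rel p0 W w (bt h t m) m.i (i - 1) p v
  | .rR m i, x => MOK h rel p0 facc K W w t m ∧ i ≤ EE h m.x m.fin ∧ x = bt h t m + i
  | .ex x', x => WOK h rel p0 w (t + 1) x' ∧ t < w.length ∧ x = t + 1
  | .f1 b, x => x = t + 1 ∧ t = w.length ∧ (b = true ↔ ∃ f, facc f = true ∧ nr h rel p0 w w.length f)
  | .fin b, x => x = t + 2 ∧ t = w.length ∧ (b = true ↔ ∃ f, facc f = true ∧ nr h rel p0 w w.length f)

/-- The memory can still lead to the end. -/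
def GM (w : List A) (t : ℕ) (m : Mem) : Prop :=
  m.d = cnL h rel p0 w (bt h t m) m.l m.z ∧ m.e = smL h rel p0 W w (bt h t m) m.i m.l m.z

/-- The state can still lead to the end. -/
def Good (w : List A) (t : ℕ) : St h → Prop
  | .wr _ => True
  | .hm m => GM h rel p0 W w t m
  | .h1 m => GM h rel p0 W w t m
  | .rA m i => GM h rel p0 W w t m ∧ ∃ p, OnM h rel p0 W w (bt h t m) m.i 0 p m.l (ix h m.z) ∧
      (bas m.x m.fin = true → 1 ≤ i) ∧ (bas m.x m.fin = false → p.val < i)
  | .rB m p _ => GM h rel p0 W w t m ∧ OnM h rel p0 W w (bt h t m) m.i 0 p m.l (ix h m.z)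
  | .rC m p v i => GM h rel p0 W w t m ∧ OnM h rel p0 W w (bt h t m) m.i (i - 1) p m.l (ix h m.z) ∧
      v = Dm h rel p0 W w (bt h t m) m.i (i - 1) p
  | .rR m _ => GM h rel p0 W w t m
  | .ex _ => True
  | .f1 _ => True
  | .fin _ => True

/-- The runs on a frozen tape (`n = t + 1` is the last visited cell). -/
def RS (τ : ℕ → Sym (WS A)) (n : ℕ) (c c' : St h × ℕ) : Prop :=
  c.2 ≤ n ∧ ∃ d, Tr h rel p0 facc K W c.1 (τ c.2) c'.1 (keep (τ c.2)) d ∧
    (d = true → c'.2 = c.2 + 1) ∧ (d = false → c'.2 + 1 = c.2)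

end defs

end Pool.Agent.L0h32.UX
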