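import Pool.Agent.L0h32.UX.Def

/-!
# Project UX: the statements of the modules
-/

set_option autoImplicit false
set_option linter.all false

namespace Pool.Agent.L0h32.UX

open Relation
open Pool.Agent.H630R2.LA (LimAut Sym Cfg Step init initTape WS lrel bitS ix nr Ann keep)

/-! ### Weights -/

open Classical in
/-- ISO: the isolation lemma -/
def S_ISO : Prop := ∀ (E : Type) [Fintype E] (R : ℕ) (F : Finset (Finset E)),
  (Finset.univ.filter (fun ω : E → Fin R => ∃ A ∈ F, ∃ B ∈ F, A ≠ B ∧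
    (∀ C ∈ F, ∑ e ∈ A, (ω e : ℕ) ≤ ∑ e ∈ C, (ω e : ℕ)) ∧
    (∀ C ∈ F, ∑ e ∈ B, (ω e : ℕ) ≤ ∑ e ∈ C, (ω e : ℕ)))).card * R ≤
  Fintype.card E * R ^ Fintype.card E

open Classical in
/-- AVG: a small family that is good for all -/
def S_AVG : Prop := ∀ (Ω T : Type) [Fintype Ω] [Fintype T] [Nonempty Ω] (bad : T → Ω → Prop) (K : ℕ),
  (∀ τ, 2 * (Finset.univ.filter (fun ω => bad τ ω)).card ≤ Fintype.card Ω) →
  Fintype.card T < 2 ^ K → ∃ f : ℕ → Ω, ∀ τ, ∃ i < K, ¬ bad τ (f i)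

/-- The weight function of `ω`. -/
def wtF {P : Type} (N R : ℕ) (ω : Fin N × P × P → Fin R) (j : ℕ) (p q : P) : ℕ :=
  if hj : j < N then ω (⟨j, hj⟩, p, q) else 0

open Classical in
/-- BDG: the number of the bad weight functions (from ISO: a path is the set of its edges) -/
def S_BDG : Prop := ∀ (P : Type) [Fintype P] (N R : ℕ) (S : P → Prop) (Eg : ℕ → P → P → Prop),
  (Finset.univ.filter (fun ω : Fin N × P × P → Fin R =>
    ∃ l ≤ N, ∃ z, ¬ GUq S Eg (wtF N R ω) l z)).card * R ≤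
  (N + 1) * Fintype.card P * (N * Fintype.card P ^ 2) * R ^ (N * Fintype.card P ^ 2)

/-- WG: weight functions for a finite set of graphs (from AVG, BDG with
`R = 2 (N + 1) N |P| ^ 3 + 1`) -/
def S_WG : Prop := ∀ (P T : Type) [Fintype P] [Fintype T] (N K : ℕ) (S : T → P → Prop)
  (Eg : T → ℕ → P → P → Prop), Fintype.card T < 2 ^ K →
  ∃ W : ℕ → ℕ → P → P → ℕ, (∀ i j p q, W i j p q ≤ 2 * (N + 1) * N * Fintype.card P ^ 3) ∧
    ∀ τ, ∃ i < K, ∀ l ≤ N, ∀ z, GUq (S τ) (Eg τ) (W i) l z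

/-- The number of the weight functions and the largest weight. -/
def KB (h a : ℕ) : ℕ := 2 ^ h + 2 * 2 ^ h * (a + 1) + 1
def RB (h : ℕ) : ℕ := 2 * (2 * 2 ^ h + 1) * (2 * 2 ^ h) * (2 ^ h) ^ 3

/-- The weight functions are good for all words. -/
def WGood {A : Type} (h : ℕ) (rel : A → Fin (2 ^ h) → Fin (2 ^ h) → Bool) (p0 : Fin (2 ^ h)) (K : ℕ)
    (W : ℕ → ℕ → Fin (2 ^ h) → Fin (2 ^ h) → ℕ) : Prop :=
  ∀ (w : List A) (β L : ℕ), L ≤ 2 * 2 ^ h → ∃ i < K, ∀ l ≤ L, ∀ z, Uq h rel p0 W w β i l z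

/-- WGT: weight functions for all words (from WG, `T = (P → Bool) × (Fin (2 * 2 ^ h) → Option A)`) -/
def S_WGT : Prop := ∀ (A : Type) [Finite A] (h : ℕ) (rel : A → Fin (2 ^ h) → Fin (2 ^ h) → Bool)
  (p0 : Fin (2 ^ h)), ∃ W : ℕ → ℕ → Fin (2 ^ h) → Fin (2 ^ h) → ℕ,
    (∀ i j p q, W i j p q ≤ RB h) ∧ WGood h rel p0 (KB h (Nat.card A)) W

/-! ### Layers -/

/-- LAY: from one layer to the next one -/
def S_LAY : Prop := ∀ (P : Type) [Finite P] (S : P → Prop) (Eg : ℕ → P → P → Prop)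
  (wt : ℕ → P → P → ℕ) (l : ℕ) (q : P), (∀ p, GUq S Eg wt l p) →
  ((∃ v, GPw S Eg wt (l + 1) q v) ↔ ∃ p, (∃ v, GPw S Eg wt l p v) ∧ Eg l p q) ∧
  (∀ p, (∃ v, GPw S Eg wt l p v) → Eg l p q → GDm S Eg wt (l + 1) q ≤ GDm S Eg wt l p + wt l p q) ∧
  ((∃ v, GPw S Eg wt (l + 1) q v) → ∃ p, (∃ v, GPw S Eg wt l p v) ∧ Eg l p q ∧
    GDm S Eg wt l p + wt l p q = GDm S Eg wt (l + 1) q) ∧
  (GUq S Eg wt (l + 1) q ↔ ∀ p p', (∃ v, GPw S Eg wt l p v) → Eg l p q →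
    GDm S Eg wt l p + wt l p q = GDm S Eg wt (l + 1) q →
    (∃ v, GPw S Eg wt l p' v) → Eg l p' q →
    GDm S Eg wt l p' + wt l p' q = GDm S Eg wt (l + 1) q → p = p')

/-! ### The machine -/

/-- CARD: the number of states -/
def S_CARD : Prop := ∀ (h N : ℕ), Finite {s : St h // Bd h N s} ∧
  Nat.card {s : St h // Bd h N s} ≤ 2 ^ (h + 10) * (N + 1) ^ 16

/-- BND: the invariants imply the bounds -/
def S_BND : Prop := ∀ (A : Type) (h : ℕ) (rel : A → Fin (2 ^ h) → Fin (2 ^ h) → Bool)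
  (p0 : Fin (2 ^ h)) (facc : Fin (2 ^ h) → Bool) (K : ℕ) (W : ℕ → ℕ → Fin (2 ^ h) → Fin (2 ^ h) → ℕ)
  (R N : ℕ), (∀ i j p q, W i j p q ≤ R) → K + 2 ^ h * ((2 * 2 ^ h + 1) * (R + 2)) ≤ N →
  (∀ (w : List A) (t : ℕ) (s : St h) (x : ℕ), SOK h rel p0 facc K W w t s x → Bd h N s) ∧
  (∀ (w : List A) (t : ℕ) (x : Wr), WOK h rel p0 w t x → BdW N x)

/-- MV0: the memory at the beginning is right -/
def S_MV0 : Prop := ∀ (A : Type) (h : ℕ) (rel : A → Fin (2 ^ h) → Fin (2 ^ h) → Bool)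
  (p0 : Fin (2 ^ h)) (facc : Fin (2 ^ h) → Bool) (K : ℕ) (W : ℕ → ℕ → Fin (2 ^ h) → Fin (2 ^ h) → ℕ)
  (w : List A) (t i : ℕ) (x : Wr) (fin : Bool), i < K → WOK h rel p0 w t x →
  (fin = false → t < w.length) → (fin = true → t = w.length) →
  MOK h rel p0 facc K W w t (mem0 h p0 facc x fin i)

/-- HOP: the changes at home preserve the invariants (uses LAY, MV0) -/
def S_HOP : Prop := ∀ (A : Type) (h : ℕ) (rel : A → Fin (2 ^ h) → Fin (2 ^ h) → Bool)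
  (p0 : Fin (2 ^ h)) (facc : Fin (2 ^ h) → Bool) (K : ℕ) (W : ℕ → ℕ → Fin (2 ^ h) → Fin (2 ^ h) → ℕ)
  (w : List A) (t : ℕ) (m m' : Mem), MOK h rel p0 facc K W w t m → Hop h p0 facc K m m' →
  MOK h rel p0 facc K W w t m'

/-- YES: a source is found -/
def S_YES : Prop := ∀ (A : Type) (h : ℕ) (rel : A → Fin (2 ^ h) → Fin (2 ^ h) → Bool)
  (p0 : Fin (2 ^ h)) (facc : Fin (2 ^ h) → Bool) (K : ℕ) (W : ℕ → ℕ → Fin (2 ^ h) → Fin (2 ^ h) → ℕ)
  (w : List A) (t : ℕ) (τ : ℕ → Sym (WS A)),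
  t ≤ w.length → Ann h rel p0 w τ (min (t + 1) w.length) → ∀ (m : Mem) (v : ℕ),
  MOK h rel p0 facc K W w t m → m.l < Ly h m → m.y < 2 ^ h → m.z < 2 ^ h →
  Pw h rel p0 W w (bt h t m) m.i m.l (ix h m.z) v →
  MOK h rel p0 facc K W w t (yes h rel W m v (τ (bt h t m + m.l + 1)))

/-- EXI: the results are right -/
def S_EXI : Prop := ∀ (A : Type) (h : ℕ) (rel : A → Fin (2 ^ h) → Fin (2 ^ h) → Bool)
  (p0 : Fin (2 ^ h)) (facc : Fin (2 ^ h) → Bool) (K : ℕ) (W : ℕ → ℕ → Fin (2 ^ h) → Fin (2 ^ h) → ℕ)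
  (w : List A) (t : ℕ) (m : Mem), MOK h rel p0 facc K W w t m → m.l = Ly h m →
  (m.fin = false → WOK h rel p0 w (t + 1) (nxt h m.x m.f)) ∧
  (m.fin = true → (m.f = true ↔ ∃ f, facc f = true ∧ nr h rel p0 w w.length f))

/-- MOV: all moves preserve the invariants (from HOP, YES, EXI) -/
def S_MOV : Prop := ∀ (A : Type) (h : ℕ) (rel : A → Fin (2 ^ h) → Fin (2 ^ h) → Bool)
  (p0 : Fin (2 ^ h)) (facc : Fin (2 ^ h) → Bool) (K : ℕ) (W : ℕ → ℕ → Fin (2 ^ h) → Fin (2 ^ h) → ℕ)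
  (w : List A) (t : ℕ) (τ : ℕ → Sym (WS A)),
  t ≤ w.length → Ann h rel p0 w τ (min (t + 1) w.length) →
  ∀ (s s' : St h) (x x' : ℕ) (b : WS A) (d : Bool), SOK h rel p0 facc K W w t s x →
    Tr h rel p0 facc K W s (τ x) s' b d → (d = true → x' = x + 1) → (d = false → x' + 1 = x) →
    b = keep (τ x) ∧ x ≤ t + 1 ∧
      ((∃ x'', s = .ex x'' ∧ s' = .wr x'' ∧ x = t + 1 ∧ x' = t + 2 ∧ WOK h rel p0 w (t + 1) x'' ∧
        t < w.length) ∨ SOK h rel p0 facc K W w t s' x')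

/-- BCK: if the next state is good then the present one is good -/
def S_BCK : Prop := ∀ (A : Type) (h : ℕ) (rel : A → Fin (2 ^ h) → Fin (2 ^ h) → Bool)
  (p0 : Fin (2 ^ h)) (facc : Fin (2 ^ h) → Bool) (K : ℕ) (W : ℕ → ℕ → Fin (2 ^ h) → Fin (2 ^ h) → ℕ)
  (w : List A) (t : ℕ) (τ : ℕ → Sym (WS A)),
  t ≤ w.length → Ann h rel p0 w τ (min (t + 1) w.length) →
  ∀ (s s' : St h) (x x' : ℕ) (b : WS A) (d : Bool), SOK h rel p0 facc K W w t s x →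
    SOK h rel p0 facc K W w t s' x' → Tr h rel p0 facc K W s (τ x) s' b d →
    Good h rel p0 W w t s' → Good h rel p0 W w t s

/-- LOC: at most one move leads to a good state -/
def S_LOC : Prop := (∀ (A : Type) (h : ℕ) (rel : A → Fin (2 ^ h) → Fin (2 ^ h) → Bool)
  (p0 : Fin (2 ^ h)) (facc : Fin (2 ^ h) → Bool) (K : ℕ) (W : ℕ → ℕ → Fin (2 ^ h) → Fin (2 ^ h) → ℕ)
  (w : List A) (t : ℕ) (τ : ℕ → Sym (WS A)),
  t ≤ w.length → Ann h rel p0 w τ (min (t + 1) w.length) →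
  ∀ (s s₁ s₂ : St h) (x : ℕ) (b₁ b₂ : WS A) (d₁ d₂ : Bool), SOK h rel p0 facc K W w t s x →
    Tr h rel p0 facc K W s (τ x) s₁ b₁ d₁ → Tr h rel p0 facc K W s (τ x) s₂ b₂ d₂ →
    Good h rel p0 W w t s₁ → Good h rel p0 W w t s₂ → s₁ = s₂ ∧ b₁ = b₂ ∧ d₁ = d₂) ∧
  (∀ (A : Type) (h : ℕ) (rel : A → Fin (2 ^ h) → Fin (2 ^ h) → Bool)
    (p0 : Fin (2 ^ h)) (facc : Fin (2 ^ h) → Bool) (K : ℕ) (W : ℕ → ℕ → Fin (2 ^ h) → Fin (2 ^ h) → ℕ)
    (x : Wr) (σ : Sym (WS A)) (s₁ s₂ : St h) (b₁ b₂ : WS A) (d₁ d₂ : Bool),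
    Tr h rel p0 facc K W (.wr x) σ s₁ b₁ d₁ → Tr h rel p0 facc K W (.wr x) σ s₂ b₂ d₂ →
    s₁ = s₂ ∧ b₁ = b₂ ∧ d₁ = d₂)

/-- A computation on `w` (the list of its configurations) which ends behind the right end-marker in an
accepting state or in a state of `G` (a rejecting state). -/
def IsRun {A : Type} (strict : Prop) (M : LimAut A) (G : Set M.Q) (w : List A) (r : List (Cfg M)) :
    Prop :=
  r.head? = some (init M w) ∧ List.IsChain (Step strict w.length) r ∧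
    ∃ c, r.getLast? = some c ∧ c.pos = w.length + 2 ∧ c.state ∈ M.F ∪ G

/-- UNA: there is at most one such computation, and its answer is right (from MV0, MOV, BCK, LOC) -/
def S_UNA : Prop := ∀ (A : Type) [Finite A] (strict : Prop) (h : ℕ)
  (rel : A → Fin (2 ^ h) → Fin (2 ^ h) → Bool) (p0 : Fin (2 ^ h)) (facc : Fin (2 ^ h) → Bool)
  (K : ℕ) (W : ℕ → ℕ → Fin (2 ^ h) → Fin (2 ^ h) → ℕ) (N : ℕ)
  (hQ : Finite {s : St h // Bd h N s}) (w : List A), 0 < K →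
  (∀ r r', IsRun strict (uM h rel p0 facc K W N hQ) (uG h rel p0 facc K W N hQ) w r →
    IsRun strict (uM h rel p0 facc K W N hQ) (uG h rel p0 facc K W N hQ) w r' → r = r') ∧
  (∀ c : Cfg (uM h rel p0 facc K W N hQ : LimAut A), ReflTransGen (Step strict w.length) (init _ w) c →
    (c.state.1 = .fin true → ∃ f, facc f = true ∧ nr h rel p0 w w.length f) ∧
    (c.state.1 = .fin false → ¬ ∃ f, facc f = true ∧ nr h rel p0 w w.length f))

/-! ### Existence of the computation -/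

/-- PTH: a reachable source can be tested -/
def S_PTH : Prop := ∀ (A : Type) (h : ℕ) (rel : A → Fin (2 ^ h) → Fin (2 ^ h) → Bool)
  (p0 : Fin (2 ^ h)) (facc : Fin (2 ^ h) → Bool) (K : ℕ) (W : ℕ → ℕ → Fin (2 ^ h) → Fin (2 ^ h) → ℕ)
  (w : List A) (t : ℕ) (τ : ℕ → Sym (WS A)),
  t ≤ w.length → Ann h rel p0 w τ (min (t + 1) w.length) → ∀ (m : Mem) (v : ℕ),
  MOK h rel p0 facc K W w t m → m.l < Ly h m → m.y < 2 ^ h → m.z < 2 ^ h →
  Pw h rel p0 W w (bt h t m) m.i m.l (ix h m.z) v →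
  ReflTransGen (RS h rel p0 facc K W τ (t + 1)) (.hm m, t)
    (.hm (yes h rel W m v (τ (bt h t m + m.l + 1))), t)

/-- ENU: all sources (from PTH, YES, HOP) -/
def S_ENU : Prop := ∀ (A : Type) (h : ℕ) (rel : A → Fin (2 ^ h) → Fin (2 ^ h) → Bool)
  (p0 : Fin (2 ^ h)) (facc : Fin (2 ^ h) → Bool) (K : ℕ) (W : ℕ → ℕ → Fin (2 ^ h) → Fin (2 ^ h) → ℕ)
  (w : List A) (t : ℕ) (τ : ℕ → Sym (WS A)),
  t ≤ w.length → Ann h rel p0 w τ (min (t + 1) w.length) → ∀ m : Mem,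
  MOK h rel p0 facc K W w t m → m.l < Ly h m → m.y < 2 ^ h → m.z = 0 →
  ∃ r : Rec, MOK h rel p0 facc K W w t { m with z := 2 ^ h, d := m.c, e := m.s, r := r } ∧
    ReflTransGen (RS h rel p0 facc K W τ (t + 1)) (.hm m, t)
      (.hm { m with z := 2 ^ h, d := m.c, e := m.s, r := r }, t)

/-- LYR: one layer (from ENU, HOP, LAY) -/
def S_LYR : Prop := ∀ (A : Type) (h : ℕ) (rel : A → Fin (2 ^ h) → Fin (2 ^ h) → Bool)
  (p0 : Fin (2 ^ h)) (facc : Fin (2 ^ h) → Bool) (K : ℕ) (W : ℕ → ℕ → Fin (2 ^ h) → Fin (2 ^ h) → ℕ)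
  (w : List A) (t : ℕ) (τ : ℕ → Sym (WS A)),
  t ≤ w.length → Ann h rel p0 w τ (min (t + 1) w.length) → ∀ m : Mem,
  MOK h rel p0 facc K W w t m → m.l < Ly h m → m.y = 0 → m.z = 0 →
  ((∀ q, Uq h rel p0 W w (bt h t m) m.i (m.l + 1) q) →
    ∃ m' : Mem, MOK h rel p0 facc K W w t m' ∧ m'.x = m.x ∧ m'.fin = m.fin ∧ m'.i = m.i ∧
      m'.l = m.l + 1 ∧ m'.y = 0 ∧ m'.z = 0 ∧
      ReflTransGen (RS h rel p0 facc K W τ (t + 1)) (.hm m, t) (.hm m', t)) ∧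
  ((¬ ∀ q, Uq h rel p0 W w (bt h t m) m.i (m.l + 1) q) → m.i + 1 < K →
    ReflTransGen (RS h rel p0 facc K W τ (t + 1)) (.hm m, t)
      (.hm (mem0 h p0 facc m.x m.fin (m.i + 1)), t))

/-- ALL: all layers (from LYR, MV0) -/
def S_ALL : Prop := ∀ (A : Type) (h : ℕ) (rel : A → Fin (2 ^ h) → Fin (2 ^ h) → Bool)
  (p0 : Fin (2 ^ h)) (facc : Fin (2 ^ h) → Bool) (K : ℕ) (W : ℕ → ℕ → Fin (2 ^ h) → Fin (2 ^ h) → ℕ)
  (w : List A) (t : ℕ) (τ : ℕ → Sym (WS A)),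
  t ≤ w.length → Ann h rel p0 w τ (min (t + 1) w.length) → ∀ (x : Wr) (fin : Bool),
  WOK h rel p0 w t x → (fin = false → t < w.length) → (fin = true → t = w.length) →
  (∃ i < K, ∀ l ≤ LL h x fin, ∀ q, Uq h rel p0 W w (t + 1 - EE h x fin) i l q) →
  ∃ m : Mem, MOK h rel p0 facc K W w t m ∧ m.x = x ∧ m.fin = fin ∧ m.l = Ly h m ∧
    ReflTransGen (RS h rel p0 facc K W τ (t + 1)) (.hm (mem0 h p0 facc x fin 0), t) (.hm m, t)

/-- CMP: there is a computation with an answer (from ALL, BND, MV0, MOV) -/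
def S_CMP : Prop := ∀ (A : Type) [Finite A] (strict : Prop) (h : ℕ)
  (rel : A → Fin (2 ^ h) → Fin (2 ^ h) → Bool) (p0 : Fin (2 ^ h)) (facc : Fin (2 ^ h) → Bool)
  (K : ℕ) (W : ℕ → ℕ → Fin (2 ^ h) → Fin (2 ^ h) → ℕ) (R N : ℕ)
  (hQ : Finite {s : St h // Bd h N s}) (w : List A), (∀ i j p q, W i j p q ≤ R) →
  K + 2 ^ h * ((2 * 2 ^ h + 1) * (R + 2)) ≤ N → WGood h rel p0 K W →
  ∃ c : Cfg (uM h rel p0 facc K W N hQ : LimAut A), ReflTransGen (Step strict w.length) (init _ w) c ∧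
    c.pos = w.length + 2 ∧ (c.state.1 = .fin true ∨ c.state.1 = .fin false)

/-- On every input exactly one computation ends behind the right end-marker in an accepting or in a rejecting
state, and no state is both: the automaton is unambiguous and self-verifying. -/
def UniqueVerdict {A : Type} (strict : Prop) (M : LimAut A) (G : Set M.Q) : Prop :=
  Disjoint M.F G ∧ ∀ w : List A, ∃! r, IsRun strict M G w r

/-- UPP: the upper bound (from CARD, WGT, UNA, CMP and `L0h66.CX.UPP`: `exists_nfa`, `size_le_all`) -/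
def S_UPP : Prop := ∀ (A : Type) [Finite A] (strict : Prop) (M : LimAut A) (n : ℕ), M.size ≤ n →
  ∃ (M' : LimAut A) (G : Set M'.Q), UniqueVerdict strict M' G ∧
    M'.language strict = M.language strict ∧ M'.size + G.ncard ≤ 2 ^ (300 * n ^ 2)

end Pool.Agent.L0h32.UX
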